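import Mathlib
import Pool.Agent.Y793.Fin

/-!
For every finite perfect group `G` (realizable or not) the perfect groups `(G ≀ A_n) ≀ A_r` are
Galois groups over the rational numbers, for all large `n` and all `r = 8 k + 4` large in terms of
`n`; they are regular Galois groups over `K(t)` for every field `K` of characteristic zero.
-/

set_option autoImplicit false

namespace Pool.Agent.Results.MP_dadaab_nt.AlternatingTowers

/-- The alternating wreath product `G ≀ A_n`: the group of the elements of `G^n ⋊ S_n` over even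
permutations. -/
def AltWreath (G : Type) [Group G] (n : ℕ) : Type :=
  (Equiv.Perm.sign.comp (SemidirectProduct.rightHom :
    (Fin n → G) ⋊[mulAutArrow] Equiv.Perm (Fin n) →* Equiv.Perm (Fin n))).ker

/-- Its group structure. -/
instance instGroup (G : Type) [Group G] (n : ℕ) : Group (AltWreath G n) :=
  inferInstanceAs (Group (Equiv.Perm.sign.comp (SemidirectProduct.rightHom :
    (Fin n → G) ⋊[mulAutArrow] Equiv.Perm (Fin n) →* Equiv.Perm (Fin n))).ker)

/-- `G` is the Galois group of a Galois extension of `K`. -/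
def Realizable (K G : Type) [Field K] [Group G] : Prop :=
  ∃ (L : Type) (_ : Field L) (_ : Algebra K L), IsGalois K L ∧ Nonempty (G ≃* (L ≃ₐ[K] L))

/-- `G` is the Galois group of a Galois extension of `K(t)` in which `K` is algebraically
closed. -/
def RegularlyRealizable (K G : Type) [Field K] [Group G] : Prop :=
  ∃ (F : Type) (_ : Field F) (_ : Algebra (RatFunc K) F) (_ : Algebra K F)
    (_ : IsScalarTower K (RatFunc K) F),
    IsGalois (RatFunc K) F ∧ Nonempty (G ≃* (F ≃ₐ[RatFunc K] F)) ∧
      ∀ y : F, IsAlgebraic K y → y ∈ Set.range (algebraMap K F)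

theorem result (G : Type) [Group G] [Finite G] (hG : commutator G = ⊤) (K : Type) [Field K]
    [CharZero K] :
    ∃ n₀ : ℕ, ∀ n ≥ n₀, ∃ k₀ : ℕ, ∀ k ≥ k₀,
      commutator (AltWreath (AltWreath G n) (8 * k + 4)) = ⊤ ∧
      RegularlyRealizable K (AltWreath (AltWreath G n) (8 * k + 4)) ∧
      (NumberField K → Realizable K (AltWreath (AltWreath G n) (8 * k + 4))) := by
  obtain ⟨n₀, h⟩ := Y793.tower_all K G hG
  refine ⟨n₀, fun n hn => ?_⟩
  obtain ⟨k₀, h2⟩ := h n hn
  refine ⟨k₀, fun k hk => ?_⟩
  obtain ⟨h3, h4, h5⟩ := h2 k hk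
  exact ⟨h3, h4, fun hK => h5 hK.to_finiteDimensional⟩

end Pool.Agent.Results.MP_dadaab_nt.AlternatingTowers
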