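import Mathlib
import Pool.Prelude.Def_F_b1b78ff3
import Pool.Agent.Y140.IG.Main

/-!
# The inverse Galois problem is equivalent to a version with restricted ramification

Let `K` be a number field, `N : ℕ → ℕ` any function and `S` any nonabelian finite simple group. The
following are equivalent.

1. Every finite group is a Galois group over `K`.
2. Every finite group which has a unique minimal normal subgroup, and this subgroup is a power of
   `S`, is a Galois group over `K`.
3. For every finite group `G` and every finite set `T` of primes of `K` there is a Galois extension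
   `L` of `K` with group `G`, unramified at all infinite places, such that for every nonzero prime
   ideal `P` of the ring of integers of `L` and every prime number `l` dividing the ramification
   index of `P` over `K`: either `l` is the residue characteristic of `P`, or the prime `p` of `K`
   below `P` is not in `T` and `l ^ N l` divides `Np ^ (l (l - 1)) - 1`, where `Np` is the number of
   elements of the residue field of `p`.
-/

set_option autoImplicit false

open Nfff32c05 NumberField

theorem Pool.Agent.Results.MP_dadaab_nt.RestrictedRamification.result :
    ∀ (K : Type) [Field K] [NumberField K] (N : ℕ → ℕ) (S : Type) [Group S] [Finite S]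
      [IsSimpleGroup S], (∃ a b : S, a * b ≠ b * a) →
    List.TFAE [
      ∀ (G : Type) [Group G] [Finite G], IsRealizable K G,
      ∀ (G : Type) [Group G] [Finite G] (A : Subgroup G) [A.Normal] (n : ℕ), 0 < n →
        Nonempty (A ≃* (Fin n → S)) → (∀ H : Subgroup G, H.Normal → H ≠ ⊥ → A ≤ H) →
        IsRealizable K G,
      ∀ (G : Type) [Group G] [Finite G] (T : Finset (Ideal (𝓞 K))),
        ∃ (L : Type) (_ : Field L) (_ : NumberField L) (_ : Algebra K L) (_ : IsGalois K L),
          Nonempty (G ≃* Gal(L/K)) ∧ IsUnramifiedAtInfinitePlaces K L ∧
          ∀ P : Ideal (𝓞 L), P.IsPrime → P ≠ ⊥ → ∀ l : ℕ, l.Prime →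
            l ∣ P.ramificationIdx (𝓞 K) → (l : 𝓞 L) ∈ P ∨ (P.under (𝓞 K) ∉ T ∧
              l ^ N l ∣ Nat.card (𝓞 K ⧸ P.under (𝓞 K)) ^ (l * (l - 1)) - 1)] := by
  intro K _ _ N S _ _ _ hS
  exact Pool.Agent.Y140.IG.main K N S hS
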