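import Mathlib
import Pool.Agent.Y793.E.Real

/-!
# A closure property of the class of Galois groups over a number field

`Γ` is a finite group which is a Galois group over the number field `K` (for example `ℚ`).

* `Wr B n` is the wreath product `B ≀ S_n = (Fin n → B) ⋊ Perm (Fin n)`.
* For a homomorphism `α : B → Γ`, `AltEP α n` is the group of all `(x, ρ)` with `x` in `B ≀ A_n`,
  `ρ` in `Γ` and `α (x.left i) = ρ` for every `i`; `altProj α n (x, ρ) = ρ`. For `B = G ⋊ Γ` it is
  `(G ≀ A_n) ⋊ Γ`.
* For a character `χ : Γ → {1, -1}`, `AltTw α χ n` is the group of all `(x, ρ)` with `x` in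
  `B ≀ S_n`, `ρ` in `Γ`, `α (x.left i) = ρ` for every `i` and `sign x.right = χ ρ` (for `χ = 1` it is
  `AltEP α n`); `twProj α χ n (x, ρ) = ρ`.

Let `α : B → Γ` be a split epimorphism of finite groups with a perfect kernel `G` (that is
`B = G ⋊ Γ`, with any action of `Γ` on the perfect group `G`), let `χ` be a character of `Γ` with
values `± 1` and `n ≥ ((3 |G| + 2)!)^3`. Then for all large `k` the group
`AltEP (twProj α χ n) (8 k + 4)` is a Galois group over `K`; it is an extension of `Γ` by
`(G ≀ A_n) ≀ A_(8 k + 4)` and, for `χ = 1`, it is `((G ≀ A_n) ≀ A_(8 k + 4)) ⋊ Γ`.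
-/

set_option autoImplicit false

open Nfff32c05 Pool.Agent.H391R2 Pool.Agent.Y793

namespace Pool.Agent.Results.MP_dadaab_nt.SemidirectTowers

/-- The alternating fibre powers of `α` of degree `8 k + 4` are realizable over `K` for all large
`k`. -/
def AllLarge (K : Type) [Field K] {Γ B : Type} [Group Γ] [Group B] (α : B →* Γ) : Prop :=
  ∃ k₀ : ℕ, ∀ k ≥ k₀, IsRealizable K (AltEP α (8 * k + 4))

/-- All split extensions `B` of `Γ` with a perfect kernel have the property of the theorem. -/
def TowersAbove (K Γ : Type) [Field K] [Group Γ] : Prop :=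
  ∀ (B : Type) [Group B] [Finite B] (α : B →* Γ) (s : Γ →* B), (∀ ρ, α (s ρ) = ρ) →
    commutator α.ker = ⊤ → ∀ (χ : Γ →* ℤˣ) (n : ℕ),
      ((3 * Nat.card α.ker + 2).factorial) ^ 3 ≤ n → AllLarge K (twProj α χ n)

end Pool.Agent.Results.MP_dadaab_nt.SemidirectTowers

open Pool.Agent.Results.MP_dadaab_nt.SemidirectTowers in
theorem Pool.Agent.Results.MP_dadaab_nt.SemidirectTowers.result :
    ∀ (K : Type) [Field K] [NumberField K] (Γ : Type) [Group Γ] [Finite Γ], IsRealizable K Γ →
      TowersAbove K Γ := by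
  intro K _ _ Γ _ _ hΓ B _ _ α s hs hperf χ n hn
  exact real_tower K (T4.hilb_numberField K) Γ B α s hs hperf χ n hn hΓ
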