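import Pool.Agent.Y802.UF.Fin

/-!
# One Galois extension of the rationals which realizes all profinite groups without ramification

There is a Galois extension `L` of the field of rational numbers such that

* all completions of `L` above a prime number `p` lie in one finite extension of `ℚ_p`, for every
  `p`, and `p` splits completely in `L` for all `p` in a given finite set;
* a compositum `k` of quadratic fields is contained in `L`, and `L` is unramified over `k` at all
  finite primes;
* every profinite group with a countable base (in particular every finite group) is, as a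
  topological group, the Galois group of `L` over a field `N` with `k ⊆ N ⊆ L`.

In particular every profinite group with a countable base is the Galois group of an extension,
unramified at all finite primes, of an algebraic extension of the rationals all of whose local
degrees are finite.
-/

set_option autoImplicit false

open NumberField

namespace Pool.Agent.Results.MP_dadaab_nt.UniversalField

universe u

/-- All completions of `L` above `p` lie in one finite extension of `ℚ_p`: there is a finite
extension `F` of `ℚ_p` which contains the images of all homomorphisms from `L` to the algebraic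
closure of `ℚ_p`. -/
def FiniteLocalDegree (L : Type) [Field L] (p : ℕ) [Fact p.Prime] : Prop :=
  ∃ F : IntermediateField ℚ_[p] (AlgebraicClosure ℚ_[p]), FiniteDimensional ℚ_[p] F ∧
    ∀ (σ : L →+* AlgebraicClosure ℚ_[p]) (x : L), σ x ∈ F

/-- `k` is the compositum of quadratic extensions of `ℚ`. -/
def Multiquadratic {L : Type} [Field L] [Algebra ℚ L] (k : IntermediateField ℚ L) : Prop :=
  ∃ κ : ℕ → IntermediateField ℚ L, (∀ i, Module.finrank ℚ (κ i) = 2) ∧ k = ⨆ i, κ i

/-- `τ` is in the inertia group of `P`: it maps every algebraic integer `x` of `L` to an element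
which is congruent to `x` modulo `P`. -/
def InInertia {L : Type} [Field L] [Algebra ℚ L] (P : Ideal (𝓞 L)) (τ : L ≃ₐ[ℚ] L) : Prop :=
  ∀ x y : 𝓞 L, (y : L) = τ (x : L) → y - x ∈ P

/-- `L` is unramified over `k` at all finite primes: for every nonzero prime ideal `P` of the ring
of integers of `L` the inertia group of `P` in the Galois group of `L` over `k` is trivial. -/
def UnramifiedOver {L : Type} [Field L] [Algebra ℚ L] (k : IntermediateField ℚ L) : Prop :=
  ∀ P : Ideal (𝓞 L), P.IsPrime → P ≠ ⊥ → ∀ τ : L ≃ₐ[ℚ] L,
    (∀ x ∈ k, τ x = x) → InInertia P τ → τ = 1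

theorem result (S : Finset ℕ) :
    ∃ (L : Type) (_ : Field L) (_ : Algebra ℚ L) (_ : IsGalois ℚ L)
      (k : IntermediateField ℚ L),
      (∀ (p : ℕ) [Fact p.Prime], p ∈ S → Nonempty (L →+* ℚ_[p])) ∧
      (∀ (p : ℕ) [Fact p.Prime], FiniteLocalDegree L p) ∧
      Multiquadratic k ∧ UnramifiedOver k ∧
      ∀ (Γ : Type u) [Group Γ] [TopologicalSpace Γ] [IsTopologicalGroup Γ]
        [CompactSpace Γ] [T2Space Γ] [TotallyDisconnectedSpace Γ] [SecondCountableTopology Γ],
        ∃ N : IntermediateField ℚ L, k ≤ N ∧ Nonempty (Γ ≃ₜ* (L ≃ₐ[N] L)) :=
  Pool.Agent.Y802.UF.main S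

end Pool.Agent.Results.MP_dadaab_nt.UniversalField
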